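import Pool.Agent.Helper8.PT.Defs

/-!
# A positive proportion of the prime quadratic twists of a hyperelliptic Jacobian has torsion 2-Selmer group

Let `F` be a finite field of odd characteristic and let `C` be the curve `y ^ 2 = ∏ i, (x - e i)`,
`e i ∈ F[t]`, with an odd number of roots.  Assume that at every place of `F(t)` at most one pair of
the roots collides: the differences `e i - e j` are pairwise coprime and have the same degree `n`,
except possibly for one difference of smaller degree.  Let `r` be the number of finite places of bad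
reduction.  Then for every `c < 2 ^ (-r)` and every large `k` with `k + n` odd at least `c q ^ k / k`
of the monic primes `P` of degree `k` are such that the 2-Selmer group of the Jacobian of the twist
`y ^ 2 = ∏ i, (x - P * e i)` consists of the 2-torsion classes.
-/

set_option autoImplicit false

namespace Pool.Agent.Results.MP_1d384c_nt.PrimeTwists

open Polynomial Pool.Agent.Helper8.PT

theorem result (F : Type) [Field F] [Fintype F] (h2 : ringChar F ≠ 2) (ι : Type) [Fintype ι]
    (hι : Odd (Fintype.card ι)) (e : ι → F[X]) (n : ℕ) (a b : ι) (hab : a ≠ b)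
    (heab : e a ≠ e b) (hle : (e a - e b).degree ≤ n)
    (hdeg : ∀ i j, i ≠ j → s(i, j) ≠ s(a, b) → (e i - e j).degree = n)
    (hcop : ∀ i j k l, i ≠ j → k ≠ l → s(i, j) ≠ s(k, l) → IsCoprime (e i - e j) (e k - e l))
    (c : ℝ) (hc : c < (2 : ℝ)⁻¹ ^
      {π : F[X] | π.Monic ∧ Irreducible π ∧ ∃ i j, i ≠ j ∧ π ∣ e i - e j}.ncard) :
    ∀ᶠ k : ℕ in Filter.atTop, Odd (k + n) → c * ((Fintype.card F : ℝ) ^ k / k) ≤
      {P : F[X] | P.Monic ∧ Irreducible P ∧ P.natDegree = k ∧
        SelmerIsTorsion fun i => algebraMap F[X] (RatFunc F) (P * e i)}.ncard :=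
  main F h2 ι hι e n a b hab heab hle hdeg hcop c hc

end Pool.Agent.Results.MP_1d384c_nt.PrimeTwists
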